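import Pool.Agent.Q331.Del.SmallMain

/-!
# MP_836b05_lc, Q1 in negated form: a metric space `M` and `k` with `C_{b,M,k} > C_{M,k}`

`M` is the uniform metric space with three points and `k = 3`.  In the ordinary problem the three
servers can cover `M`, so every ratio is achieved; in version (b) repeated requests force two
servers to the same point again and again, and the ratio is at least `2`.
-/

namespace Pool.Agent.Results.MP_836b05_lc.CounterexampleSmall

open Q331.Del

/-- There is a metric space `M` with exactly three points such that for `k = 3`, from every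
initial configuration and with every choice of the initially frozen server,
`C_{b,M,3} > C_{M,3}`; moreover `C_{M,3} ≤ 1` and `C_{b,M,3} ≥ 2`. -/
theorem result : ∃ (M : Type) (_ : MetricSpace M), Nat.card M = 3 ∧
    ∀ (X₀ : Fin 3 → M) (f₀ : Fin 3),
      competitiveness (kServer M 3) X₀ < competitiveness (delayedB M 3) ⟨X₀, f₀⟩ ∧
      competitiveness (kServer M 3) X₀ ≤ ((1 : ℝ) : EReal) ∧
      ((2 : ℝ) : EReal) ≤ competitiveness (delayedB M 3) ⟨X₀, f₀⟩ := by
  refine ⟨U3, inferInstance, ?_, fun X₀ f₀ => ?_⟩
  · rw [Nat.card_eq_fintype_card]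
    exact Fintype.card_fin 3
  have h1 : competitiveness (kServer U3 3) X₀ ≤ ((1 : ℝ) : EReal) :=
    sInf_le ⟨1, small_upper X₀ 1, rfl⟩
  have h2 : ((2 : ℝ) : EReal) ≤ competitiveness (delayedB U3 3) ⟨X₀, f₀⟩ := by
    unfold competitiveness
    apply le_sInf
    rintro _ ⟨C, hC, rfl⟩
    exact EReal.coe_le_coe_iff.mpr (small_lower _ hC)
  have h3 : ((1 : ℝ) : EReal) < ((2 : ℝ) : EReal) := EReal.coe_lt_coe_iff.mpr (by norm_num)
  exact ⟨(h1.trans_lt h3).trans_le h2, h1, h2⟩

end Pool.Agent.Results.MP_836b05_lc.CounterexampleSmall
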