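import Pool.Agent.Q331.Del.Red

/-!
# MP_836b05_lc: version (a) of the delayed problem is never harder than the ordinary problem

`C_{a,M,k} ≤ C_{M,k}` for every metric space `M` and every `k ≥ 2`.
-/

namespace Pool.Agent.Results.MP_836b05_lc.VersionALe

open Q331.Del

/-- For every metric space `M`, every `k ≥ 2`, every initial configuration `X₀` and every choice
`f₀` of the initially frozen server, the competitiveness of version (a) of the delayed `k`-server
problem is at most the competitiveness of the ordinary `k`-server problem. -/
theorem result : ∀ (M : Type) [MetricSpace M] (k : ℕ), 2 ≤ k → ∀ (X₀ : Fin k → M) (f₀ : Fin k),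
    competitiveness (delayedA M k) ⟨X₀, f₀⟩ ≤ competitiveness (kServer M k) X₀ := by
  intro M _ k hk X₀ f₀
  unfold competitiveness
  apply sInf_le_sInf
  rintro _ ⟨C, hC, rfl⟩
  exact ⟨C, delayedA_of_kServer hk X₀ f₀ hC, rfl⟩

end Pool.Agent.Results.MP_836b05_lc.VersionALe
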