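import Pool.Agent.Q331.Del.RedB
import Pool.Agent.Q331.Del.WFA

/-!
# MP_836b05_lc: version (b) of the delayed problem is `(2 k - 1)`-competitive in every metric space
-/

namespace Pool.Agent.Results.MP_836b05_lc.VersionBFinite

open Q331.Del

/-- In every metric space `M`, for every `k ≥ 2`, every initial configuration and every choice of
the initially frozen server, the competitiveness of version (b) of the delayed `k`-server problem
is at most `2 k - 1`. -/
theorem result : ∀ (M : Type) [MetricSpace M] (k : ℕ), 2 ≤ k → ∀ (X₀ : Fin k → M) (f₀ : Fin k),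
    competitiveness (delayedB M k) ⟨X₀, f₀⟩ ≤ ((2 * k - 1 : ℝ) : EReal) := by
  intro M _ k hk X₀ f₀
  have h1 : Competitive (delayedA (M × ℝ) k) ⟨(fun x : M => ((x, 0) : M × ℝ)) ∘ X₀, f₀⟩
      (2 * k - 1) :=
    delayedA_of_kServer hk _ _ (kServer_competitive (by omega) _)
  have h2 : Competitive (delayedB M k) ⟨X₀, f₀⟩ (2 * k - 1) := by
    refine delayedB_of_delayedA (ι := fun x : M => ((x, 0) : M × ℝ)) ?_ ?_ X₀ f₀ h1
    · intro x y
      simp [Prod.dist_eq]
    · intro x ε hε
      refine ⟨(x, ε / 2), ?_, ?_⟩
      · intro h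
        have := congrArg Prod.snd h
        simp at this
        linarith
      · rw [Prod.dist_eq, dist_self, Real.dist_eq, sub_zero, abs_of_pos (by linarith),
          max_eq_right (by linarith)]
        linarith
  exact sInf_le ⟨_, h2, rfl⟩

end Pool.Agent.Results.MP_836b05_lc.VersionBFinite
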