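import Pool.Agent.Q331.Del.RedB

/-!
# MP_836b05_lc: the inequality `C_{b,M,k} ≤ C_{M,k}` for metric spaces without isolated points
-/

namespace Pool.Agent.Results.MP_836b05_lc.VersionBPerfect

open Q331.Del

/-- Let `M` be a metric space without isolated points and `k ≥ 2`. Then from every initial
configuration with every choice of the initially frozen server the competitiveness of version (b)
of the delayed `k`-server problem is at most the competitiveness of version (a), and also at most
the competitiveness of the ordinary `k`-server problem. -/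
theorem result : ∀ (M : Type) [MetricSpace M], (∀ x : M, ∀ ε > 0, ∃ y : M, y ≠ x ∧ dist y x < ε) →
    ∀ (k : ℕ), 2 ≤ k → ∀ (X₀ : Fin k → M) (f₀ : Fin k),
    competitiveness (delayedB M k) ⟨X₀, f₀⟩ ≤ competitiveness (delayedA M k) ⟨X₀, f₀⟩ ∧
    competitiveness (delayedB M k) ⟨X₀, f₀⟩ ≤ competitiveness (kServer M k) X₀ := by
  intro M _ hM k hk X₀ f₀
  have h1 : competitiveness (delayedB M k) ⟨X₀, f₀⟩ ≤
      competitiveness (delayedA M k) ⟨X₀, f₀⟩ := by
    unfold competitiveness
    apply sInf_le_sInf
    rintro _ ⟨C, hC, rfl⟩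
    exact ⟨C, delayedB_of_delayedA (ι := fun x : M => x) (fun _ _ => rfl) hM X₀ f₀ hC, rfl⟩
  refine ⟨h1, h1.trans ?_⟩
  unfold competitiveness
  apply sInf_le_sInf
  rintro _ ⟨C, hC, rfl⟩
  exact ⟨C, delayedA_of_kServer hk X₀ f₀ hC, rfl⟩

end Pool.Agent.Results.MP_836b05_lc.VersionBPerfect
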